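import Pool.Agent.Helper85.LN.Goals

/-!
PACKET LN GROWN (MP_d0c558_al, project LN of helper85): locally nontrivial contracting automaton groups
have polynomial growth.
-/

set_option autoImplicit false

namespace Pool.Agent.Helper32.LN.GROWN

open Pool.Agent.Helper85.LN Pool.Agent.Helper5.Gap

variable {Q X : Type*}

/-- `h` is the section of `g` at `u` -/
def IsSec (g : Equiv.Perm (List X)) (u : List X) (h : Equiv.Perm (List X)) : Prop :=
  ∀ x, g (u ++ x) = g u ++ h x

lemma isSec_nil {g : Equiv.Perm (List X)} (hg : g [] = []) : IsSec g [] g := by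
  intro x
  rw [hg]
  rfl

lemma isSec_one (u : List X) : IsSec (1 : Equiv.Perm (List X)) u 1 := fun _ => rfl

lemma IsSec.mul {g h g' h' : Equiv.Perm (List X)} {u : List X} (h1 : IsSec h u h')
    (h2 : IsSec g (h u) g') : IsSec (g * h) u (g' * h') := by
  intro x
  rw [Equiv.Perm.mul_apply, h1 x, h2 (h' x)]
  rfl

lemma IsSec.append {g g' g'' : Equiv.Perm (List X)} {u v : List X} (h1 : IsSec g u g')
    (h2 : IsSec g' v g'') : IsSec g (u ++ v) g'' := by
  intro x
  rw [List.append_assoc, h1, h2, h1 v, List.append_assoc]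

lemma length_eq (A : Auto Q X) {g : Equiv.Perm (List X)} (hg : g ∈ A.G) (u : List X) :
    (g u).length = u.length := by
  obtain ⟨w, rfl⟩ := (A.mem_G_iff g).1 hg
  exact A.val_length w u

lemma exists_sec (A : Auto Q X) {g : Equiv.Perm (List X)} (hg : g ∈ A.G) (u : List X) :
    ∃ h ∈ A.G, IsSec g u h := by
  obtain ⟨w, rfl⟩ := (A.mem_G_iff g).1 hg
  clear hg
  induction u generalizing w with
  | nil => exact ⟨A.val w, A.val_mem w, isSec_nil (A.val_apply_nil w)⟩
  | cons a u ih =>
    obtain ⟨h, hh, h1⟩ := ih (A.toWA.scw w a)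
    refine ⟨h, hh, fun x => ?_⟩
    rw [List.cons_append, A.val_apply_cons, A.val_apply_cons, h1 x, List.cons_append]

lemma IsSec.sct_eq {A : Auto Q X} {g h : Equiv.Perm (List X)} (hg : g ∈ A.G) {u : List X}
    (h1 : IsSec g u h) : sct g u = h := by
  funext x
  unfold sct
  rw [h1 x, ← length_eq A hg u, List.drop_left]

/-- the finite set -/
def FF (A : Auto Q X) (N : Finset (List X → List X)) : Set (Equiv.Perm (List X)) :=
  {g | g ∈ A.G ∧ (g : List X → List X) ∈ N} ∪ Set.range A.ps ∪ {1}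

lemma FF_finite [Finite Q] (A : Auto Q X) (N : Finset (List X → List X)) : (FF A N).Finite := by
  refine ((Set.Finite.subset (s := (fun g : Equiv.Perm (List X) => (g : List X → List X)) ⁻¹' N) ?_ ?_).union
    (Set.finite_range _)).union (Set.finite_singleton 1)
  · exact Set.Finite.preimage (DFunLike.coe_injective.injOn) N.finite_toSet
  · rintro g ⟨-, hg⟩
    exact hg

lemma FF_mem {A : Auto Q X} {N : Finset (List X → List X)} {g : Equiv.Perm (List X)}
    (hg : g ∈ FF A N) : g ∈ A.G := by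
  rcases hg with (hg | ⟨s, rfl⟩) | hg
  · exact hg.1
  · exact A.ps_mem s
  · rw [Set.mem_singleton_iff] at hg
    rw [hg]
    exact A.G.one_mem

lemma prod_mem {A : Auto Q X} {N : Finset (List X → List X)} {l : List (Equiv.Perm (List X))}
    (hl : ∀ g ∈ l, g ∈ FF A N) : l.prod ∈ A.G :=
  A.G.list_prod_mem fun g hg => FF_mem (hl g hg)

/-- a common depth for all products of two elements -/
lemma exists_K [Finite Q] {A : Auto Q X} {N : Finset (List X → List X)}
    (hN : ∀ g ∈ A.G, ∃ k : ℕ, ∀ u : List X, k ≤ u.length → sct g u ∈ N) :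
    ∃ K : ℕ, ∀ a ∈ FF A N, ∀ b ∈ FF A N, ∀ u : List X, K ≤ u.length → sct (a * b : Equiv.Perm (List X)) u ∈ N := by
  classical
  have hfin := FF_finite A N
  have h1 : ∀ p ∈ FF A N ×ˢ FF A N, ∃ k : ℕ, ∀ u : List X, k ≤ u.length →
      sct (p.1 * p.2 : Equiv.Perm (List X)) u ∈ N := by
    rintro ⟨a, b⟩ ⟨ha, hb⟩
    exact hN _ (A.G.mul_mem (FF_mem ha) (FF_mem hb))
  choose! k hk using h1
  have hfin2 := hfin.prod hfin
  obtain ⟨K, hK⟩ := (hfin2.image k).bddAbove
  refine ⟨K, fun a ha b hb u hu => ?_⟩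
  have h2 : k (a, b) ≤ K := hK ⟨(a, b), ⟨ha, hb⟩, rfl⟩
  exact hk (a, b) ⟨ha, hb⟩ u (h2.trans hu)

/-- sections of products of `2 ^ j` elements -/
lemma sec_prod {A : Auto Q X} {N : Finset (List X → List X)} {K : ℕ}
    (hK : ∀ a ∈ FF A N, ∀ b ∈ FF A N, ∀ u : List X, K ≤ u.length → sct (a * b : Equiv.Perm (List X)) u ∈ N)
    (j : ℕ) : ∀ (l : List (Equiv.Perm (List X))), l.length ≤ 2 ^ j → (∀ g ∈ l, g ∈ FF A N) →
    ∀ u : List X, u.length = K * j → ∃ h ∈ FF A N, IsSec l.prod u h := by
  induction j with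
  | zero =>
    intro l hl hlF u hu
    rw [mul_zero, List.length_eq_zero_iff] at hu
    subst hu
    rw [pow_zero] at hl
    match l, hl with
    | [], _ => exact ⟨1, Or.inr rfl, isSec_one _⟩
    | [a], _ =>
      refine ⟨a, hlF a (by simp), ?_⟩
      rw [List.prod_singleton]
      apply isSec_nil
      have := length_eq A (FF_mem (hlF a (by simp))) []
      rwa [List.length_nil, List.length_eq_zero_iff] at this
    | a :: b :: l, hl => simp at hl
  | succ j ih =>
    intro l hl hlF u hu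
    have h1 : (l.take (2 ^ j)).length ≤ 2 ^ j := by
      rw [List.length_take]; exact min_le_left _ _
    have h2 : (l.drop (2 ^ j)).length ≤ 2 ^ j := by
      rw [List.length_drop]
      have : 2 ^ (j + 1) = 2 ^ j + 2 ^ j := by ring
      omega
    have hu1 : (u.take (K * j)).length = K * j := by
      rw [List.length_take, hu]
      apply min_eq_left
      exact Nat.mul_le_mul_left K (Nat.le_succ j)
    have hu2 : (u.drop (K * j)).length = K := by
      rw [List.length_drop, hu, Nat.mul_succ]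
      omega
    have hF1 : ∀ g ∈ l.take (2 ^ j), g ∈ FF A N := fun g hg => hlF g (List.mem_of_mem_take hg)
    have hF2 : ∀ g ∈ l.drop (2 ^ j), g ∈ FF A N := fun g hg => hlF g (List.mem_of_mem_drop hg)
    obtain ⟨b, hb, hb1⟩ := ih (l.drop (2 ^ j)) h2 hF2 (u.take (K * j)) hu1
    have hu3 : ((l.drop (2 ^ j)).prod (u.take (K * j))).length = K * j := by
      rw [length_eq A (prod_mem hF2), hu1]
    obtain ⟨a, ha, ha1⟩ := ih (l.take (2 ^ j)) h1 hF1 _ hu3
    have h3 := hb1.mul ha1
    rw [← List.prod_append, List.take_append_drop] at h3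
    have hab : a * b ∈ A.G := A.G.mul_mem (FF_mem ha) (FF_mem hb)
    obtain ⟨c, hc, hc1⟩ := exists_sec A hab (u.drop (K * j))
    have h4 := h3.append hc1
    rw [List.take_append_drop] at h4
    refine ⟨c, Or.inl (Or.inl ⟨hc, ?_⟩), h4⟩
    rw [← hc1.sct_eq hab]
    exact hK a ha b hb _ hu2.ge

lemma ball_sub {A : Auto Q X} {N : Finset (List X → List X)} {n : ℕ} {g : Equiv.Perm (List X)}
    (hg : g ∈ ball (Set.range A.perm) n) : ∃ l : List (Equiv.Perm (List X)), l.length ≤ n ∧
      (∀ x ∈ l, x ∈ FF A N) ∧ l.prod = g := by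
  obtain ⟨l, h1, h2, h3⟩ := hg
  refine ⟨l, h1, fun x hx => Or.inl (Or.inr ?_), h3⟩
  rcases h2 x hx with ⟨q, hq⟩ | ⟨q, hq⟩
  · exact ⟨(q, true), hq⟩
  · refine ⟨(q, false), ?_⟩
    show (A.perm q)⁻¹ = x
    rw [hq, inv_inv]

lemma growth_le {m d : ℕ} (A : Auto (Fin m) (Fin d)) (hLN : A.LN) {N : Finset (List (Fin d) → List (Fin d))}
    {K : ℕ}
    (hK : ∀ a ∈ FF A N, ∀ b ∈ FF A N, ∀ u : List (Fin d), K ≤ u.length →
      sct (a * b : Equiv.Perm (List (Fin d))) u ∈ N)
    (u0 : ℕ → List (Fin d)) (hu0 : ∀ j, (u0 j).length = j) {n j : ℕ} (hn : n ≤ 2 ^ j) :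
    growth (Set.range A.perm) n ≤ d ^ (K * j) * (FF A N).ncard := by
  have hfin := FF_finite A N
  set U := u0 (K * j) with hU
  have hUl : U.length = K * j := hu0 _
  have h1 : ∀ g ∈ ball (Set.range A.perm) n, ∃ h ∈ FF A N, IsSec g U h := by
    intro g hg
    obtain ⟨l, h1, h2, rfl⟩ := ball_sub (N := N) hg
    exact sec_prod hK j l (h1.trans hn) h2 U hUl
  choose! σ hσ1 hσ2 using h1
  have hG : ∀ g ∈ ball (Set.range A.perm) n, g ∈ A.G := by
    intro g hg
    obtain ⟨l, -, h2, rfl⟩ := ball_sub (N := N) hg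
    exact prod_mem h2
  set L : Set (List (Fin d)) := {v | v.length = K * j} with hL
  have hLfin : L.Finite := List.finite_length_eq (Fin d) (K * j)
  have hLcard : L.ncard = d ^ (K * j) := by
    have e1 : L = Set.range (fun v : Fin (K * j) → Fin d => List.ofFn v) := by
      ext v
      constructor
      · intro hv
        have hv' : v.length = K * j := hv
        refine ⟨fun i => v.get (i.cast hv'.symm), ?_⟩
        apply List.ext_get
        · simp [hv']
        · intro i h1 h2
          simp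
      · rintro ⟨v, rfl⟩
        simp [hL]
    rw [e1, ← Set.image_univ, Set.ncard_image_of_injective _ List.ofFn_injective, Set.ncard_univ,
      Nat.card_eq_fintype_card]
    simp
  have h2 : (ball (Set.range A.perm) n).ncard ≤ (L ×ˢ FF A N).ncard := by
    refine Set.ncard_le_ncard_of_injOn (fun g => (g U, σ g)) ?_ ?_ (hLfin.prod hfin)
    · intro g hg
      exact ⟨by show (g U).length = K * j; rw [length_eq A (hG g hg), hUl], hσ1 g hg⟩
    · intro g hg h hh hgh
      have e1 : g U = h U := congrArg Prod.fst hgh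
      have e2 : σ g = σ h := congrArg Prod.snd hgh
      have h3 : ∀ x, g (U ++ x) = h (U ++ x) := by
        intro x
        rw [hσ2 g hg x, hσ2 h hh x, e1, e2]
      have h4 : h⁻¹ * g = 1 := by
        apply hLN _ (A.G.mul_mem (A.G.inv_mem (hG h hh)) (hG g hg)) U
        intro x
        rw [Equiv.Perm.mul_apply, h3, ← Equiv.Perm.mul_apply, inv_mul_cancel]
        rfl
      exact (inv_mul_eq_one.mp h4).symm
  rw [Set.ncard_prod, hLcard] at h2
  exact h2

theorem grown : S_GROWN := by
  intro m d A hLN ⟨N, hN⟩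
  obtain ⟨K, hK⟩ := exists_K hN
  rcases Nat.eq_zero_or_pos d with hd | hd
  · subst hd
    haveI : Subsingleton (List (Fin 0)) := ⟨fun a b => by
      match a, b with
      | [], [] => rfl
      | x :: _, _ => exact x.elim0
      | _, x :: _ => exact x.elim0⟩
    refine ⟨1, 0, fun n => ?_⟩
    have h1 : ball (Set.range A.perm) n ⊆ {1} := by
      intro g _
      exact Subsingleton.elim _ _
    have h2 := Set.ncard_le_ncard h1 (Set.finite_singleton _)
    rw [Set.ncard_singleton] at h2
    simpa [growth] using h2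
  · refine ⟨(FF A N).ncard * 2 ^ (d * K), d * K, fun n => ?_⟩
    set j := Nat.log 2 (n + 1) + 1 with hj
    have hn : n + 1 < 2 ^ j := Nat.lt_pow_succ_log_self (by norm_num) _
    have hj2 : 2 ^ j ≤ 2 * (n + 1) := by
      rw [hj, pow_succ, mul_comm]
      exact Nat.mul_le_mul_left 2 (Nat.pow_log_le_self 2 (by omega))
    have h1 := growth_le A hLN hK (fun j => List.replicate j ⟨0, hd⟩) (fun j => List.length_replicate)
      (show n ≤ 2 ^ j by omega)
    refine h1.trans ?_
    have h2 : d ^ (K * j) ≤ 2 ^ (d * K) * (n + 1) ^ (d * K) := by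
      calc d ^ (K * j) ≤ (2 ^ d) ^ (K * j) := Nat.pow_le_pow_left (Nat.lt_two_pow_self).le _
        _ = (2 ^ j) ^ (d * K) := by
          rw [← pow_mul, ← pow_mul]
          congr 1
          ring
        _ ≤ (2 * (n + 1)) ^ (d * K) := Nat.pow_le_pow_left hj2 _
        _ = 2 ^ (d * K) * (n + 1) ^ (d * K) := mul_pow _ _ _
    calc d ^ (K * j) * (FF A N).ncard ≤ (2 ^ (d * K) * (n + 1) ^ (d * K)) * (FF A N).ncard :=
          Nat.mul_le_mul_right _ h2
      _ = (FF A N).ncard * 2 ^ (d * K) * (n + 1) ^ (d * K) := by ring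

end Pool.Agent.Helper32.LN.GROWN
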